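import Pool.Agent.Helper7.KT.St

set_option autoImplicit false

namespace Pool.Agent.Helper6.KT

open Finset SimpleGraph Filter Topology
open EX Pool.Agent.Helper7.KT

open scoped Classical

noncomputable section

theorem cnt (s n : ℕ) (j : Fin s) (B : ℝ) (hB : 0 ≤ B) (R : Fin n → (Fin s → Fin n) → Prop)
    (h : ∀ u, ∀ g : {i // i ≠ j} → Fin n,
      ((univ.filter fun x => R u ((Equiv.funSplitAt j (Fin n)).symm (x, g))).card : ℝ) ≤ B) :
    ((univ.filter fun p : Fin n × (Fin s → Fin n) => R p.1 p.2).card : ℝ) ≤ (n : ℝ) ^ s * B := by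
  have hs : 1 ≤ s := j.pos
  have h1 : ((univ.filter fun p : Fin n × (Fin s → Fin n) => R p.1 p.2).card : ℝ) =
      ∑ u : Fin n, ∑ v : Fin s → Fin n, (if R u v then (1 : ℝ) else 0) := by
    rw [← Fintype.sum_prod_type']
    rw [Finset.sum_boole]
  rw [h1]
  have h2 : ∀ u : Fin n, ∑ v : Fin s → Fin n, (if R u v then (1 : ℝ) else 0) ≤
      (n : ℝ) ^ (s - 1) * B := by
    intro u
    rw [← Equiv.sum_comp (Equiv.funSplitAt j (Fin n)).symm, Fintype.sum_prod_type_right]
    calc ∑ g : ({i // i ≠ j} → Fin n), ∑ x : Fin n,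
          (if R u ((Equiv.funSplitAt j (Fin n)).symm (x, g)) then (1 : ℝ) else 0)
        ≤ ∑ _g : ({i // i ≠ j} → Fin n), B := by
          apply Finset.sum_le_sum
          intro g _
          rw [Finset.sum_boole]
          exact h u g
      _ = (n : ℝ) ^ (s - 1) * B := by
          rw [Finset.sum_const, nsmul_eq_mul]
          congr 1
          rw [Finset.card_univ, Fintype.card_fun, Fintype.card_fin]
          have h3 : Fintype.card {i : Fin s // i ≠ j} = s - 1 := by
            rw [Fintype.card_subtype_compl (fun i => i = j)]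
            simp
          rw [h3]
          push_cast
          rfl
  calc ∑ u : Fin n, ∑ v : Fin s → Fin n, (if R u v then (1 : ℝ) else 0)
      ≤ ∑ _u : Fin n, (n : ℝ) ^ (s - 1) * B := Finset.sum_le_sum fun u _ => h2 u
    _ = (n : ℝ) ^ s * B := by
        rw [Finset.sum_const, nsmul_eq_mul, Finset.card_univ, Fintype.card_fin, ← mul_assoc,
          ← pow_succ', Nat.sub_add_cancel hs]

theorem spl_self (s n : ℕ) (j : Fin s) (x : Fin n) (g : {i // i ≠ j} → Fin n) :
    (Equiv.funSplitAt j (Fin n)).symm (x, g) j = x := by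
  simp

theorem spl_ne (s n : ℕ) (j : Fin s) (x : Fin n) (g : {i // i ≠ j} → Fin n) (i : Fin s)
    (h : i ≠ j) : (Equiv.funSplitAt j (Fin n)).symm (x, g) i = g ⟨i, h⟩ := by
  simp [h]

theorem total (m n : ℕ) (hn : 1 ≤ n) (η : ℝ) (hη : 0 < η) (E : Finset (Fin n × Fin n))
    (hE : η * (n : ℝ) ^ 2 ≤ E.card) :
    η ^ (m + 1) * (n : ℝ) ^ (m + 2) ≤
      ((univ.filter fun p : Fin n × (Fin (m + 1) → Fin n) => ∀ i, (p.1, p.2 i) ∈ E).card : ℝ) := by
  have hn' : (0 : ℝ) < n := by exact_mod_cast hn
  have h1 : ((univ.filter fun p : Fin n × (Fin (m + 1) → Fin n) =>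
      ∀ i, (p.1, p.2 i) ∈ E).card : ℝ) =
      ∑ u : Fin n, ((univ.filter fun v => (u, v) ∈ E).card : ℝ) ^ (m + 1) := by
    have h2 : ((univ.filter fun p : Fin n × (Fin (m + 1) → Fin n) =>
        ∀ i, (p.1, p.2 i) ∈ E).card : ℝ) =
        ∑ u : Fin n, ∑ v : Fin (m + 1) → Fin n, (if ∀ i, (u, v i) ∈ E then (1 : ℝ) else 0) := by
      rw [← Fintype.sum_prod_type']
      rw [Finset.sum_boole]
    rw [h2]
    apply Finset.sum_congr rfl
    intro u _
    rw [Finset.sum_boole]
    have h3 : (univ.filter fun v : Fin (m + 1) → Fin n => ∀ i, (u, v i) ∈ E) =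
        Fintype.piFinset (fun _ : Fin (m + 1) => univ.filter fun v => (u, v) ∈ E) := by
      ext v
      simp [Fintype.mem_piFinset]
    rw [h3, Fintype.card_piFinset]
    simp
  have h4 : (E.card : ℝ) = ∑ u : Fin n, ((univ.filter fun v => (u, v) ∈ E).card : ℝ) := by
    have h5 : (E.card : ℝ) = ∑ u : Fin n, ∑ v : Fin n, (if (u, v) ∈ E then (1 : ℝ) else 0) := by
      rw [← Fintype.sum_prod_type', Finset.sum_boole]
      congr 2
      ext p
      simp
    rw [h5]
    apply Finset.sum_congr rfl
    intro u _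
    rw [Finset.sum_boole]
  rw [h1]
  have h7 := pow_sum_div_card_le_sum_pow (s := (univ : Finset (Fin n)))
    (f := fun u => ((univ.filter fun v => (u, v) ∈ E).card : ℝ)) (fun i _ => Nat.cast_nonneg _) m
  refine le_trans ?_ h7
  rw [← h4, Finset.card_univ, Fintype.card_fin, le_div_iff₀ (pow_pos hn' m)]
  calc η ^ (m + 1) * (n : ℝ) ^ (m + 2) * (n : ℝ) ^ m = (η * (n : ℝ) ^ 2) ^ (m + 1) := by ring
    _ ≤ (E.card : ℝ) ^ (m + 1) := by
        apply pow_le_pow_left₀ _ hE
        positivity

theorem hRBC : StRBC := by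
  intro s η hη
  obtain _ | m := s
  · refine ⟨1, one_pos, fun δ' _ _ => ?_⟩
    filter_upwards with n E c _ _ _
    refine ⟨fun i => i.elim0, fun i => i.elim0, ?_⟩
    have h1 : (univ.filter fun u : Fin n => (∀ i : Fin 0, (u, (i.elim0 : Fin n)) ∈ E) ∧
        (∀ i j : Fin 0, i ≠ j → c u (i.elim0 : Fin n) ≠ c u (j.elim0 : Fin n)) ∧
          ∀ i j : Fin 0, c u (i.elim0 : Fin n) ≠ (j.elim0 : Fin n)) = univ := by
      apply Finset.filter_true_of_mem
      intro u _
      exact ⟨fun i => i.elim0, fun i => i.elim0, fun i => i.elim0⟩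
    rw [h1]
    simp
    have : (0 : ℝ) ≤ n := Nat.cast_nonneg n
    linarith
  · set s := m + 1 with hs
    have hs0 : (0 : ℝ) < (s : ℝ) ^ 2 := by positivity
    have hηs : 0 < η ^ s := pow_pos hη s
    refine ⟨η ^ s / (4 * ((s : ℝ) ^ 2 + 1)), by positivity, fun δ' hδ0 hδ => ?_⟩
    filter_upwards [eventually_ge_atTop 1, eventually_ge_atTop ⌈8 * (s : ℝ) ^ 2 / η ^ s⌉₊]
      with n hn1 hn2 E c hc1 hc2 hE
    have hn' : (0 : ℝ) < n := by exact_mod_cast hn1
    have hn3 : 8 * (s : ℝ) ^ 2 / η ^ s ≤ n := (Nat.le_ceil _).trans (by exact_mod_cast hn2)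
    have hn4 : 8 * (s : ℝ) ^ 2 ≤ η ^ s * n := by
      rw [div_le_iff₀ hηs] at hn3
      linarith
    have hδ2 : (s : ℝ) ^ 2 * δ' ≤ η ^ s / 4 := by
      have h1 : (s : ℝ) ^ 2 * δ' ≤ ((s : ℝ) ^ 2 + 1) * δ' := by nlinarith
      have h2 : ((s : ℝ) ^ 2 + 1) * δ' ≤ ((s : ℝ) ^ 2 + 1) * (η ^ s / (4 * ((s : ℝ) ^ 2 + 1))) :=
        mul_le_mul_of_nonneg_left hδ (by positivity)
      have h3 : ((s : ℝ) ^ 2 + 1) * (η ^ s / (4 * ((s : ℝ) ^ 2 + 1))) = η ^ s / 4 := by
        field_simp
      linarith
    have htot := total m n hn1 η hη E hE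
    rw [← hs] at htot
    set T := (univ.filter fun p : Fin n × (Fin s → Fin n) => ∀ i, (p.1, p.2 i) ∈ E) with hT
    set G := (univ.filter fun p : Fin n × (Fin s → Fin n) => Function.Injective p.2 ∧
      (∀ i, (p.1, p.2 i) ∈ E) ∧ (∀ i j, i ≠ j → c p.1 (p.2 i) ≠ c p.1 (p.2 j)) ∧
      ∀ i j, c p.1 (p.2 i) ≠ p.2 j) with hG
    let B1 : Fin s × Fin s → Finset (Fin n × (Fin s → Fin n)) := fun ij =>
      univ.filter fun p => ij.1 ≠ ij.2 ∧ p.2 ij.1 = p.2 ij.2
    let B2 : Fin s × Fin s → Finset (Fin n × (Fin s → Fin n)) := fun ij =>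
      univ.filter fun p => ij.1 ≠ ij.2 ∧ (p.1, p.2 ij.2) ∈ E ∧
        c p.1 (p.2 ij.1) = c p.1 (p.2 ij.2)
    let B3 : Fin s × Fin s → Finset (Fin n × (Fin s → Fin n)) := fun ij =>
      univ.filter fun p => ij.1 ≠ ij.2 ∧ c p.1 (p.2 ij.1) = p.2 ij.2
    have hB1 : ∀ ij, ((B1 ij).card : ℝ) ≤ (n : ℝ) ^ s * 1 := by
      rintro ⟨i, j⟩
      by_cases hij : i = j
      · have h1 : B1 (i, j) = ∅ := by
          apply Finset.filter_false_of_mem
          intro p _ h
          exact h.1 hij
        rw [h1]
        simp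
      · refine le_trans (le_of_eq ?_) (cnt s n j 1 zero_le_one (fun u v => i ≠ j ∧ v i = v j) ?_)
        · congr 2
          ext p
          simp only [B1, mem_filter]
        intro u g
        have h2 : (univ.filter fun x : Fin n => i ≠ j ∧
            (Equiv.funSplitAt j (Fin n)).symm (x, g) i =
              (Equiv.funSplitAt j (Fin n)).symm (x, g) j) ⊆ {g ⟨i, hij⟩} := by
          intro x hx
          rw [mem_filter] at hx
          rw [spl_self, spl_ne s n j x g i hij] at hx
          rw [mem_singleton]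
          exact hx.2.2.symm
        have h3 := card_le_card h2
        rw [card_singleton] at h3
        exact_mod_cast h3
    have hB3 : ∀ ij, ((B3 ij).card : ℝ) ≤ (n : ℝ) ^ s * 1 := by
      rintro ⟨i, j⟩
      by_cases hij : i = j
      · have h1 : B3 (i, j) = ∅ := by
          apply Finset.filter_false_of_mem
          intro p _ h
          exact h.1 hij
        rw [h1]
        simp
      · refine le_trans (le_of_eq ?_)
          (cnt s n j 1 zero_le_one (fun u v => i ≠ j ∧ c u (v i) = v j) ?_)
        · congr 2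
          ext p
          simp only [B3, mem_filter]
        intro u g
        have h2 : (univ.filter fun x : Fin n => i ≠ j ∧
            c u ((Equiv.funSplitAt j (Fin n)).symm (x, g) i) =
              (Equiv.funSplitAt j (Fin n)).symm (x, g) j) ⊆ {c u (g ⟨i, hij⟩)} := by
          intro x hx
          rw [mem_filter] at hx
          rw [spl_self, spl_ne s n j x g i hij] at hx
          rw [mem_singleton]
          exact hx.2.2.symm
        have h3 := card_le_card h2
        rw [card_singleton] at h3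
        exact_mod_cast h3
    have hB2 : ∀ ij, ((B2 ij).card : ℝ) ≤ (n : ℝ) ^ s * (δ' * n) := by
      rintro ⟨i, j⟩
      by_cases hij : i = j
      · have h1 : B2 (i, j) = ∅ := by
          apply Finset.filter_false_of_mem
          intro p _ h
          exact h.1 hij
        rw [h1]
        simp only [card_empty, Nat.cast_zero]
        positivity
      · refine le_trans (le_of_eq ?_) (cnt s n j (δ' * n) (by positivity)
          (fun u v => i ≠ j ∧ (u, v j) ∈ E ∧ c u (v i) = c u (v j)) ?_)
        · congr 2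
          ext p
          simp only [B2, mem_filter]
        intro u g
        refine le_trans ?_ (hc2 u (c u (g ⟨i, hij⟩)))
        have h2 : (univ.filter fun x : Fin n => i ≠ j ∧
            (u, (Equiv.funSplitAt j (Fin n)).symm (x, g) j) ∈ E ∧
            c u ((Equiv.funSplitAt j (Fin n)).symm (x, g) i) =
              c u ((Equiv.funSplitAt j (Fin n)).symm (x, g) j)) ⊆
            (univ.filter fun v => (u, v) ∈ E ∧ c u v = c u (g ⟨i, hij⟩)) := by
          intro x hx
          rw [mem_filter] at hx ⊢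
          rw [spl_self, spl_ne s n j x g i hij] at hx
          exact ⟨mem_univ _, hx.2.2.1, hx.2.2.2.symm⟩
        exact_mod_cast card_le_card h2
    have hsub : T ⊆ G ∪ (univ : Finset (Fin s × Fin s)).biUnion
        (fun ij => B1 ij ∪ B2 ij ∪ B3 ij) := by
      intro p hp
      rw [hT, mem_filter] at hp
      by_cases hb : ∃ ij, p ∈ B1 ij ∪ B2 ij ∪ B3 ij
      · obtain ⟨ij, hij⟩ := hb
        apply mem_union_right
        exact mem_biUnion.2 ⟨ij, mem_univ _, hij⟩
      · apply mem_union_left
        push Not at hb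
        rw [hG, mem_filter]
        refine ⟨mem_univ _, ?_, hp.2, ?_, ?_⟩
        · intro i j hij
          by_contra hne
          apply hb (i, j)
          apply mem_union_left
          apply mem_union_left
          exact mem_filter.2 ⟨mem_univ _, hne, hij⟩
        · intro i j hne hij
          apply hb (i, j)
          apply mem_union_left
          apply mem_union_right
          exact mem_filter.2 ⟨mem_univ _, hne, hp.2 j, hij⟩
        · intro i j hij
          by_cases hne : i = j
          · subst hne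
            exact hc1 _ _ (hp.2 i) hij
          · apply hb (i, j)
            apply mem_union_right
            exact mem_filter.2 ⟨mem_univ _, hne, hij⟩
    have hcard : (T.card : ℝ) ≤ G.card + (s : ℝ) ^ 2 * (2 * (n : ℝ) ^ s + (n : ℝ) ^ s * (δ' * n)) := by
      have h1 : (T.card : ℝ) ≤ (G.card : ℝ) +
          ∑ ij : Fin s × Fin s, ((B1 ij).card + (B2 ij).card + (B3 ij).card : ℝ) := by
        have h2 := card_le_card hsub
        have h3 := card_union_le G ((univ : Finset (Fin s × Fin s)).biUnion
          (fun ij => B1 ij ∪ B2 ij ∪ B3 ij))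
        have h4 : ((univ : Finset (Fin s × Fin s)).biUnion
            (fun ij => B1 ij ∪ B2 ij ∪ B3 ij)).card ≤
            ∑ ij : Fin s × Fin s, ((B1 ij).card + (B2 ij).card + (B3 ij).card) := by
          refine card_biUnion_le.trans (Finset.sum_le_sum fun ij _ => ?_)
          refine (card_union_le _ _).trans ?_
          have := card_union_le (B1 ij) (B2 ij)
          omega
        have h5 : T.card ≤ G.card +
            ∑ ij : Fin s × Fin s, ((B1 ij).card + (B2 ij).card + (B3 ij).card) := by omega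
        exact_mod_cast h5
      have h6 : ∑ ij : Fin s × Fin s, ((B1 ij).card + (B2 ij).card + (B3 ij).card : ℝ) ≤
          ∑ _ij : Fin s × Fin s, (2 * (n : ℝ) ^ s + (n : ℝ) ^ s * (δ' * n)) := by
        apply Finset.sum_le_sum
        intro ij _
        have := hB1 ij
        have := hB2 ij
        have := hB3 ij
        linarith
      rw [Finset.sum_const, nsmul_eq_mul, Finset.card_univ, Fintype.card_prod,
        Fintype.card_fin] at h6
      push_cast at h6
      have h7 : (s : ℝ) ^ 2 = s * s := by ring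
      rw [h7]
      linarith
    have hGc : η ^ s / 2 * (n : ℝ) ^ (s + 1) ≤ G.card := by
      have h1 : (n : ℝ) ^ (s + 1) = (n : ℝ) ^ s * n := pow_succ _ _
      have h2 : 0 < (n : ℝ) ^ s := pow_pos hn' s
      have h3 : (s : ℝ) ^ 2 * (2 * (n : ℝ) ^ s) ≤ η ^ s / 4 * ((n : ℝ) ^ s * n) := by
        have : (s : ℝ) ^ 2 * 2 ≤ η ^ s / 4 * n := by linarith
        nlinarith
      have h4 : (s : ℝ) ^ 2 * ((n : ℝ) ^ s * (δ' * n)) ≤ η ^ s / 4 * ((n : ℝ) ^ s * n) := by
        have h5 : 0 < (n : ℝ) ^ s * n := by positivity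
        calc (s : ℝ) ^ 2 * ((n : ℝ) ^ s * (δ' * n)) = ((s : ℝ) ^ 2 * δ') * ((n : ℝ) ^ s * n) := by
              ring
          _ ≤ η ^ s / 4 * ((n : ℝ) ^ s * n) := mul_le_mul_of_nonneg_right hδ2 h5.le
      rw [h1] at htot ⊢
      have h6 : (s : ℝ) ^ 2 * (2 * (n : ℝ) ^ s + (n : ℝ) ^ s * (δ' * n)) =
        (s : ℝ) ^ 2 * (2 * (n : ℝ) ^ s) + (s : ℝ) ^ 2 * ((n : ℝ) ^ s * (δ' * n)) := by ring
      rw [h6] at hcard
      have h7 : η ^ s * ((n : ℝ) ^ s * n) = η ^ s / 2 * ((n : ℝ) ^ s * n) +
        η ^ s / 4 * ((n : ℝ) ^ s * n) + η ^ s / 4 * ((n : ℝ) ^ s * n) := by ring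
      linarith
    by_contra hcon
    push Not at hcon
    have hup : (G.card : ℝ) ≤ (n : ℝ) ^ s * (η ^ s / 4 * n) := by
      have h1 : (G.card : ℝ) = ∑ v : Fin s → Fin n,
          ((univ.filter fun u => (u, v) ∈ G).card : ℝ) := by
        have h5 : (G.card : ℝ) = ∑ u : Fin n, ∑ v : Fin s → Fin n,
            (if (u, v) ∈ G then (1 : ℝ) else 0) := by
          rw [← Fintype.sum_prod_type', Finset.sum_boole]
          congr 2
          ext p
          simp
        rw [h5, Finset.sum_comm]
        apply Finset.sum_congr rfl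
        intro u _
        rw [Finset.sum_boole]
      rw [h1]
      calc ∑ v : Fin s → Fin n, ((univ.filter fun u => (u, v) ∈ G).card : ℝ)
          ≤ ∑ _v : Fin s → Fin n, (η ^ s / 4 * n) := by
            apply Finset.sum_le_sum
            intro v _
            by_cases hv : Function.Injective v
            · refine le_trans ?_ (hcon v hv).le
              have h6 : (univ.filter fun u => (u, v) ∈ G) ⊆
                  (univ.filter fun u => (∀ i, (u, v i) ∈ E) ∧
                  (∀ i j, i ≠ j → c u (v i) ≠ c u (v j)) ∧ ∀ i j, c u (v i) ≠ v j) := by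
                intro u hu
                rw [mem_filter, hG, mem_filter] at hu
                exact mem_filter.2 ⟨mem_univ _, hu.2.2.2⟩
              exact_mod_cast card_le_card h6
            · have h6 : (univ.filter fun u => (u, v) ∈ G) = ∅ := by
                apply Finset.filter_false_of_mem
                intro u _ hu
                rw [hG, mem_filter] at hu
                exact hv hu.2.1
              rw [h6]
              simp only [card_empty, Nat.cast_zero]
              positivity
        _ = (n : ℝ) ^ s * (η ^ s / 4 * n) := by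
            rw [Finset.sum_const, nsmul_eq_mul, Finset.card_univ, Fintype.card_fun,
              Fintype.card_fin, Fintype.card_fin]
            push_cast
            rfl
    have h9 : 0 < (n : ℝ) ^ (s + 1) := pow_pos hn' _
    have h10 : (n : ℝ) ^ s * (η ^ s / 4 * n) = η ^ s / 4 * (n : ℝ) ^ (s + 1) := by
      rw [pow_succ]; ring
    rw [h10] at hup
    nlinarith

end

end Pool.Agent.Helper6.KT
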